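import Pool.Agent.H698.HF.UG

set_option autoImplicit false

/-!
# The Unique Games Conjecture for circuits that compute with unknown inputs

A unique game is given by its set of constraints (a left vertex, a right vertex and a permutation of
the alphabet `Fin q`).  The circuits read, for each possible constraint, whether it is known to be
present, known to be absent or unknown.  The gates have values in an ordered set `D` of states of
knowledge and apply arbitrary functions `D → D → D` that respect the order (more knowledge about the
arguments gives more knowledge about the value); `D` is any partially ordered set in which the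
elements below a given one form a chain of real numbers.

* If `D` is the flat order with the values `unknown`, `known true` and `known false` then these are
  the hazard-free (Kleene, three-valued) circuits with arbitrary binary gates, each evaluated by its
  most precise extension; negations are allowed.
* If `D` is the flat order over an arbitrary set `A` (labels, vertices, words, ...) the gates may
  apply arbitrary functions `A → A → A` as soon as the arguments are known.
* If `D = ℝ` then these are the monotone real circuits.

For all these models at once: for every alphabet size `q ≥ 2`, every soundness `δ > 1 / q` and every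
`ε ≥ N ^ (-1/139)` randomised circuits need size `2 ^ (N ^ (1/139)) - 1` to raise the alarm whenever
`m` constraints with value at most `δ` are known to be present (further constraints cannot repair
this) and not to raise it on completely known games with at least `m` constraints of which some
labelling violates at most `ε m`. With `ε = 0` circuits of polynomial size do this.

Proof. Feed the circuit with the games whose absent constraints are declared unknown. All gate
values are then below the value for the set of all constraints, so that they lie in a chain, in
which the gate is simulated by one monotone real gate; no gates are lost. Then the lower bound for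
monotone real circuits of `Pool.Graph.R_seed8.W906.MU` applies.
-/

namespace Pool.Agent.Results.MP_325f1f_lc.UnknownInputCircuits

open Pool.Agent.H698.HF
open Pool.Agent.W906.MU (Con Game NoI YesI)

/-- Let `q ≥ 2` and `1 / q < δ < 1`.
(A) For all large `N` there is `m > 0` such that for all `ε ≥ N ^ (-1/139)`: (1) for every tree-like
order `D` of states of knowledge every randomised circuit over `D` that solves the gap problem for
unique games with `N + N` vertices and the alphabet `Fin q` (`SolvesUG m δ ε`) has a member with at
least `2 ^ (N ^ (1/139)) - 1` gates; (2) if `ε + δ < 1` then some function that respects the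
knowledge about the constraints is one if a game `I` with `NoI m δ I` is known to be present, and
zero on all completely known games with `YesI m ε`.
(B) For `ε = 0` there are circuits over `D = ℝ` with at most `C (N + 1) ^ 4` gates that solve it.
(C) The real numbers and all flat orders are tree-like, and the most precise extension of a function
to a flat order is nondecreasing, so that it is allowed at the gates. -/
theorem result (q : ℕ) (hq : 2 ≤ q) (δ : ℝ) (hδ : 1 / (q : ℝ) < δ) (hδ1 : δ < 1) :
    (∃ N0 : ℕ, ∀ N : ℕ, N0 ≤ N → ∃ m : ℕ, 0 < m ∧ ∀ ε : ℝ, (N : ℝ) ^ (-(1 / 139) : ℝ) ≤ ε →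
      (∀ (D : Type) [PartialOrder D], TreeLike D →
        ∀ (Ω : Type) [Fintype Ω] [Nonempty Ω] (l : Ω → List (Know (Con N q) → D)),
        (∀ ω, Circ (l ω)) → SolvesUG m δ ε l →
        ∃ ω, (2 : ℝ) ^ ((N : ℝ) ^ (1 / 139 : ℝ)) ≤ (l ω).length + 1) ∧
      (ε + δ < 1 → ∃ F : Know (Con N q) → ℝ, (∀ P Q, Le P Q → F P ≤ F Q) ∧
        ∀ I : Game N q, (NoI m δ I → F (truths fun e => e ∈ I) = 1) ∧
          (YesI m ε I → F (full fun e => e ∈ I) = 0))) ∧
    (∃ C : ℕ, ∀ N m : ℕ, 0 < m → ∃ l : List (Know (Con N q) → ℝ), Circ l ∧
      l.length ≤ C * (N + 1) ^ 4 ∧ SolvesUG m δ 0 (fun _ : Unit => l)) ∧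
    TreeLike ℝ ∧ ∀ A : Type, TreeLike (Flat A) ∧ (Nonempty A → ∀ (f : A → A → A)
      (x x' y y' : Flat A), x ≤ x' → y ≤ y' → Flat.ext f x y ≤ Flat.ext f x' y') := by
  classical
  refine ⟨?_, ?_, treeLike_real, fun A => ⟨Flat.treeLike, fun hA f x x' y y' hx hy =>
    Flat.ext_mono' f x x' y y' hx hy⟩⟩
  · obtain ⟨N0, hN0⟩ := Pool.Agent.W906.MU.lower q (by omega) δ hδ
    refine ⟨N0, fun N hN => ?_⟩
    obtain ⟨m, hm, h⟩ := hN0 N hN
    refine ⟨m, hm, fun ε hε => ⟨fun D _ hD Ω _ _ l hl hs => lowerUG hD (h ε hε) l hl hs,
      fun h1 => ?_⟩⟩
    obtain ⟨F, hF1, hF2⟩ := Pool.Agent.W906.MU.monotone_dec N q m δ ε hm h1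
    refine ⟨fun P => F (Finset.univ.filter fun e => P e = some true), fun P Q hPQ => ?_,
      fun I => ⟨fun hI => ?_, fun hI => ?_⟩⟩
    · apply hF1
      intro e he
      rw [Finset.mem_filter] at he ⊢
      refine ⟨he.1, ?_⟩
      rcases hPQ e with h2 | h2
      · rw [h2] at he
        exact absurd he.2 (by simp)
      · rw [← h2]
        exact he.2
    · have e : (Finset.univ.filter fun e : Con N q =>
          truths (fun e => e ∈ I) e = some true) = I := by
        ext e
        unfold truths
        by_cases h : e ∈ I <;> simp [h]
      simp only [e]
      exact (hF2 I).1 hI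
    · have e : (Finset.univ.filter fun e : Con N q =>
          full (fun e => e ∈ I) e = some true) = I := by
        ext e
        unfold full
        by_cases h : e ∈ I <;> simp [h]
      simp only [e]
      exact (hF2 I).2 hI
  · obtain ⟨C, hC⟩ := Pool.Agent.W906.MU.perfect q
    refine ⟨C, fun N m hm => ?_⟩
    obtain ⟨l, hl, hlen, f, hf, hfI⟩ := hC N
    have hm0 : (0 : ℝ) < m := by exact_mod_cast hm
    have hsep : Pool.Agent.W906.MU.Separates m δ 0 (fun _ : Unit => l) := by
      refine ⟨fun _ => f, fun _ => 1, fun _ => hf, fun I hI => ?_, fun I hI => ?_⟩
      · have h1 : ¬ Pool.Agent.W906.MU.Satisfiable I := by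
          rintro ⟨g, h, hgh⟩
          have h2 := hI.2 g h
          rw [Finset.filter_true_of_mem hgh, hI.1] at h2
          nlinarith
        have h3 := (hfI I).2 h1
        simp [h3]
      · have h1 : Pool.Agent.W906.MU.Satisfiable I := by
          obtain ⟨-, g, h, hgh⟩ := hI
          rw [zero_mul] at hgh
          have h2 : (I.filter fun e => ¬ Pool.Agent.W906.MU.Sat g h e).card = 0 := by
            have h3 : ((I.filter fun e => ¬ Pool.Agent.W906.MU.Sat g h e).card : ℝ) = 0 :=
              le_antisymm hgh (Nat.cast_nonneg _)
            exact_mod_cast h3
          rw [Finset.card_eq_zero, Finset.filter_eq_empty_iff] at h2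
          refine ⟨g, h, fun e he => ?_⟩
          have h4 := h2 he
          exact not_not.1 h4
        have h3 := (hfI I).1 h1
        simp [h3]
    obtain ⟨l', h1, h2, h3⟩ := upperUG hl hsep
    exact ⟨l', h1, h2.trans_le hlen, h3⟩

end Pool.Agent.Results.MP_325f1f_lc.UnknownInputCircuits
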